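import Pool.Agent.H24.Sh

set_option autoImplicit false

/-!
# The final inequality for lattices of small breadth
-/

namespace Pool.Agent.H64.VC

open Finset Pool.Agent.H24.Sh

section gen

variable {Ω : Type*} [Fintype Ω] {α : Type*} [DecidableEq α]

lemma sum_div_fib (f : Ω → α) (φ : α → ℝ) :
    ∑ ω, φ (f ω) / fib f ω = ∑ z ∈ univ.image f, φ z := by
  classical
  rw [← Finset.sum_fiberwise_of_maps_to (s := (univ : Finset Ω)) (t := univ.image f) (g := f)
    (fun ω _ => Finset.mem_image_of_mem f (Finset.mem_univ ω))]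
  refine Finset.sum_congr rfl fun z hz => ?_
  obtain ⟨ω₀, _, rfl⟩ := Finset.mem_image.1 hz
  have h1 : ∀ ω ∈ univ.filter (fun ω => f ω = f ω₀), φ (f ω) / fib f ω = φ (f ω₀) / fib f ω₀ := by
    intro ω hω
    have h2 : f ω = f ω₀ := (Finset.mem_filter.1 hω).2
    rw [fib_eq f h2, h2]
  rw [Finset.sum_congr rfl h1, Finset.sum_const, nsmul_eq_mul, card_fib f ω₀]
  have h3 := fib_pos f ω₀
  field_simp

/-- Gibbs. -/
lemma gibbs (f : Ω → α) (ρ : α → ℝ) (hρ : ∀ ω, 0 < ρ (f ω))
    (hs : ∑ z ∈ univ.image f, ρ z ≤ 1) :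
    (Fintype.card Ω : ℝ) * Real.log (Fintype.card Ω) + ∑ ω, Real.log (ρ (f ω)) ≤ S f := by
  classical
  rcases isEmpty_or_nonempty Ω with hΩ | hΩ
  · simp [S]
  have hM : (0 : ℝ) < (Fintype.card Ω : ℝ) := by exact_mod_cast Fintype.card_pos
  have h1 : ∀ ω, Real.log (Fintype.card Ω) + Real.log (ρ (f ω)) - Real.log (fib f ω) ≤
      (Fintype.card Ω : ℝ) * (ρ (f ω) / fib f ω) - 1 := by
    intro ω
    have h2 := fib_pos f ω
    have h3 := hρ ω
    have h4 := Real.log_le_sub_one_of_pos
      (show 0 < (Fintype.card Ω : ℝ) * (ρ (f ω) / fib f ω) by positivity)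
    rw [Real.log_mul hM.ne' (by positivity), Real.log_div h3.ne' h2.ne'] at h4
    linarith
  have h5 := Finset.sum_le_sum (s := (univ : Finset Ω)) fun ω _ => h1 ω
  rw [Finset.sum_sub_distrib, Finset.sum_add_distrib, Finset.sum_sub_distrib, ← Finset.mul_sum,
    sum_div_fib, Finset.sum_const, Finset.sum_const, Finset.card_univ, nsmul_eq_mul,
    nsmul_eq_mul, mul_one] at h5
  have h6 : (Fintype.card Ω : ℝ) * ∑ z ∈ univ.image f, ρ z ≤ (Fintype.card Ω : ℝ) * 1 :=
    mul_le_mul_of_nonneg_left hs hM.le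
  unfold S
  linarith

/-- Few values. -/
lemma S_ge_card [Nonempty Ω] (f : Ω → α) (K : ℝ) (hK : ((univ.image f).card : ℝ) ≤ K) :
    (Fintype.card Ω : ℝ) * (Real.log (Fintype.card Ω) - Real.log K) ≤ S f ∧ 1 ≤ K := by
  have h0 : (1 : ℝ) ≤ ((univ.image f).card : ℝ) := by
    exact_mod_cast Finset.card_pos.2 ((Finset.univ_nonempty).image f)
  have hK1 : 1 ≤ K := h0.trans hK
  have hK0 : 0 < K := by linarith
  have h1 := gibbs f (fun _ => 1 / K) (fun _ => by positivity) (by
    rw [Finset.sum_const, nsmul_eq_mul, mul_one_div]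
    exact (div_le_one hK0).2 hK)
  simp only [Finset.sum_const, Finset.card_univ, nsmul_eq_mul, one_div, Real.log_inv] at h1
  exact ⟨by linarith, hK1⟩

end gen

/-- An event `E` which is small for the uniform law and not small for the law of `f`. -/
lemma S_ge_event {Ω : Type*} [Fintype Ω] {L : Type*} [Fintype L] [DecidableEq L] [Nonempty L]
    (f : Ω → L) (E : Finset L) (hE : E.Nonempty) (q : ℝ)
    (hq : q ≤ ((univ.filter fun ω => f ω ∈ E).card : ℝ)) :
    (Fintype.card Ω : ℝ) * (Real.log (Fintype.card Ω) - Real.log 2 - Real.log (Fintype.card L)) +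
      q * (Real.log (Fintype.card L) - Real.log E.card) ≤ S f := by
  classical
  have hN : (0 : ℝ) < (Fintype.card L : ℝ) := by exact_mod_cast Fintype.card_pos
  have hEc : (0 : ℝ) < (E.card : ℝ) := by exact_mod_cast hE.card_pos
  have hEN : (E.card : ℝ) ≤ (Fintype.card L : ℝ) := by exact_mod_cast Finset.card_le_univ E
  set ρ : L → ℝ := fun z => 1 / (2 * (Fintype.card L : ℝ)) +
    (if z ∈ E then 1 / (2 * (E.card : ℝ)) else 0) with hρdef
  have hρ1 : ∀ z, 1 / (2 * (Fintype.card L : ℝ)) ≤ ρ z := by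
    intro z
    simp only [hρdef]
    split_ifs
    · have : 0 < 1 / (2 * (E.card : ℝ)) := by positivity
      linarith
    · linarith
  have hρ0 : ∀ z, 0 < ρ z := fun z => lt_of_lt_of_le (by positivity) (hρ1 z)
  have hρ2 : ∀ z ∈ E, 1 / (2 * (E.card : ℝ)) ≤ ρ z := by
    intro z hz
    simp only [hρdef, if_pos hz]
    have : 0 < 1 / (2 * (Fintype.card L : ℝ)) := by positivity
    linarith
  have hsum : ∑ z : L, ρ z = 1 := by
    simp only [hρdef]
    rw [Finset.sum_add_distrib, Finset.sum_const, Finset.card_univ, nsmul_eq_mul,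
      ← Finset.sum_filter, Finset.filter_mem_eq_inter, Finset.univ_inter, Finset.sum_const,
      nsmul_eq_mul]
    field_simp
    norm_num
  have hg := gibbs f ρ (fun ω => hρ0 _) (by
    rw [← hsum]
    exact Finset.sum_le_sum_of_subset_of_nonneg (Finset.subset_univ _) fun z _ _ => (hρ0 z).le)
  have hlog : ∀ ω, -(Real.log 2 + Real.log (Fintype.card L)) +
      (if f ω ∈ E then Real.log (Fintype.card L) - Real.log E.card else 0) ≤
      Real.log (ρ (f ω)) := by
    intro ω
    split_ifs with h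
    · have h1 := Real.log_le_log (by positivity) (hρ2 _ h)
      rw [one_div, Real.log_inv, Real.log_mul (by norm_num) hEc.ne'] at h1
      linarith
    · have h1 := Real.log_le_log (by positivity) (hρ1 (f ω))
      rw [one_div, Real.log_inv, Real.log_mul (by norm_num) hN.ne'] at h1
      linarith
  have h2 := Finset.sum_le_sum (s := (univ : Finset Ω)) fun ω _ => hlog ω
  rw [Finset.sum_add_distrib, Finset.sum_const, Finset.card_univ, nsmul_eq_mul,
    ← Finset.sum_filter, Finset.sum_const, nsmul_eq_mul] at h2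
  have h3 : 0 ≤ Real.log (Fintype.card L) - Real.log E.card := by
    have := Real.log_le_log hEc hEN
    linarith
  have h4 := mul_le_mul_of_nonneg_right hq h3
  linarith

/-- The final inequality. -/
theorem final {L : Type*} [Fintype L] [DecidableEq L] [Nonempty L] (mt : L → L → L)
    {α β : Type*} [DecidableEq α] [DecidableEq β] (T : L → α) (T1 : L → β)
    (e e1 K K1 : ℝ) (he : 0 ≤ e) (he1 : 0 ≤ e1) (hb1 : 0 ≤ 1 / 2 - e - e1)
    (hA : S (fun p : L × L => mt p.1 p.2) + 2 * (1 / 2 - e) * (Fintype.card L : ℝ) * S T ≤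
      S (fun p : L × L => T (mt p.1 p.2)))
    (hB : S (fun p : L × L => T (mt p.1 p.2)) +
      2 * (1 / 2 - e - e1) * (Fintype.card L : ℝ) * (S T1 - S T) ≤
      S (fun p : L × L => T1 (mt p.1 p.2)))
    (hK : ((univ.image T).card : ℝ) ≤ K) (hK1 : ((univ.image T1).card : ℝ) ≤ K1)
    (E : Finset L)
    (hq : (Fintype.card L : ℝ) ^ 2 / 4 ≤
      ((univ.filter fun p : L × L => mt p.1 p.2 ∈ E).card : ℝ)) :
    (1 / 4) * (Real.log (Fintype.card L) - Real.log E.card) ≤
      Real.log 2 + 2 * e * Real.log (Fintype.card L) + 2 * e1 * Real.log K + Real.log K1 := by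
  classical
  have hN : (0 : ℝ) < (Fintype.card L : ℝ) := by exact_mod_cast Fintype.card_pos
  have hE : E.Nonempty := by
    rw [Finset.nonempty_iff_ne_empty]
    rintro rfl
    simp only [Finset.notMem_empty, Finset.filter_false, Finset.card_empty, Nat.cast_zero] at hq
    have : 0 < (Fintype.card L : ℝ) ^ 2 / 4 := by positivity
    linarith
  obtain ⟨h1, hK'⟩ := S_ge_card T K hK
  obtain ⟨h2, hK1'⟩ := S_ge_card T1 K1 hK1
  have h3 := S_ge_event (fun p : L × L => mt p.1 p.2) E hE _ hq
  have hcard : (Fintype.card (L × L) : ℝ) = (Fintype.card L : ℝ) ^ 2 := by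
    rw [Fintype.card_prod]
    push_cast
    ring
  have hlogc : Real.log (Fintype.card (L × L)) = 2 * Real.log (Fintype.card L) := by
    rw [hcard, Real.log_pow]
    norm_num
  rw [hcard] at h3
  rw [show Real.log ((Fintype.card L : ℝ) ^ 2) = 2 * Real.log (Fintype.card L) by
    rw [Real.log_pow]; norm_num] at h3
  have h4 : S (fun p : L × L => T1 (mt p.1 p.2)) ≤
      (Fintype.card L : ℝ) ^ 2 * (2 * Real.log (Fintype.card L)) := by
    have h5 : ∀ p : L × L, Real.log (fib (fun p : L × L => T1 (mt p.1 p.2)) p) ≤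
        2 * Real.log (Fintype.card L) := by
      intro p
      rw [← hlogc]
      refine Real.log_le_log (fib_pos _ p) ?_
      unfold fib
      exact_mod_cast Finset.card_le_univ _
    have h6 := Finset.sum_le_sum (s := (univ : Finset (L × L))) fun p _ => h5 p
    rw [Finset.sum_const, Finset.card_univ, nsmul_eq_mul, hcard] at h6
    exact h6
  have hL1 : 0 ≤ Real.log K1 := Real.log_nonneg hK1'
  set N : ℝ := (Fintype.card L : ℝ) with hNdef
  set Λ : ℝ := Real.log N with hΛ
  have h7 : 2 * (1 / 2 - e - e1) * N * (N * (Λ - Real.log K1)) ≤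
      2 * (1 / 2 - e - e1) * N * S T1 :=
    mul_le_mul_of_nonneg_left h2 (by positivity)
  have h8 : 2 * e1 * N * (N * (Λ - Real.log K)) ≤ 2 * e1 * N * S T :=
    mul_le_mul_of_nonneg_left h1 (by positivity)
  have h9 : 0 ≤ (e + e1) * Real.log K1 * N ^ 2 := by positivity
  have h10 : N ^ 2 * ((1 / 4) * (Λ - Real.log E.card)) ≤
      N ^ 2 * (Real.log 2 + 2 * e * Λ + 2 * e1 * Real.log K + Real.log K1) := by
    nlinarith
  exact le_of_mul_le_mul_left h10 (by positivity)

end Pool.Agent.H64.VC
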